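import Pool.Agent.AT5.Stmts1
import Pool.Agent.Helper75_PP.Local
import Pool.Agent.Helper97_K9.NZR
import Pool.Agent.Helper74_PP.Brt

/-!
# Squad AT5, row IX5: the inertial index is prime to `ℓ`, for all defect groups
-/

open scoped BigOperators

set_option linter.unusedSectionVars false

noncomputable section

namespace Pool.Agent.PP.T5.H83

open Pool.Agent.Helper51_AWC Pool.Agent.Helper79_WRA Pool.Agent.PP Pool.Agent.PP.KF
open Pool.Agent.PP.K9 Pool.Agent.PP.K9.H97 Pool.Agent.PP.H75 Pool.Agent.PP.T3 Pool.Agent.PP.T2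

attribute [local instance] Ideal.Quotient.field

section grp

variable {G : Type} [Group G]

/-- the index is the number of cosets -/
theorem relIndex_eq_orbit (C D : Subgroup G) :
    C.relIndex D = ((fun x : G => (x : G ⧸ C)) '' (D : Set G)).ncard := by
  have h1 : MulAction.stabilizer D (((1 : G) : G ⧸ C)) = C.subgroupOf D := by
    ext x
    rw [MulAction.mem_stabilizer_iff, Subgroup.mem_subgroupOf]
    change ((((x : G) * 1 : G) : G ⧸ C) = ((1 : G) : G ⧸ C)) ↔ _
    rw [mul_one, eq_comm, QuotientGroup.eq, inv_one, one_mul]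
  rw [Subgroup.relIndex, ← h1, MulAction.index_stabilizer]
  congr 1
  ext y
  constructor
  · rintro ⟨d, rfl⟩
    refine ⟨d, d.2, ?_⟩
    change ((d : G) : G ⧸ C) = (((d : G) * 1 : G) : G ⧸ C)
    rw [mul_one]
  · rintro ⟨d, hd, rfl⟩
    refine ⟨⟨d, hd⟩, ?_⟩
    change (((d : G) * 1 : G) : G ⧸ C) = ((d : G) : G ⧸ C)
    rw [mul_one]

theorem relIndex_congr {C D S : Subgroup G} (hDS : D ≤ S)
    (h : ∀ s ∈ S, ∃ c ∈ C, s * c ∈ D) : C.relIndex D = C.relIndex S := by
  rw [relIndex_eq_orbit, relIndex_eq_orbit]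
  congr 1
  apply Set.Subset.antisymm
  · exact Set.image_mono hDS
  · rintro _ ⟨s, hs, rfl⟩
    obtain ⟨c, hc, hsc⟩ := h s hs
    refine ⟨s * c, hsc, ?_⟩
    change ((s * c : G) : G ⧸ C) = ((s : G) : G ⧸ C)
    rw [eq_comm, QuotientGroup.eq, inv_mul_cancel_left]
    exact hc

theorem mem_sup_norm {Q C : Subgroup G} (h : Q ≤ Subgroup.normalizer (C : Set G)) {y : G}
    (hy : y ∈ Q ⊔ C) : ∃ q ∈ Q, ∃ c ∈ C, y = q * c := by
  let K : Subgroup G :=
    { carrier := {y | ∃ q ∈ Q, ∃ c ∈ C, y = q * c}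
      one_mem' := ⟨1, Q.one_mem, 1, C.one_mem, by rw [mul_one]⟩
      mul_mem' := by
        rintro _ _ ⟨q, hq, c, hc, rfl⟩ ⟨q', hq', c', hc', rfl⟩
        refine ⟨q * q', Q.mul_mem hq hq', q'⁻¹ * c * q' * c', C.mul_mem ?_ hc', by group⟩
        have := (Subgroup.mem_normalizer_iff.1 (h (Q.inv_mem hq')) c).1 hc
        rwa [inv_inv] at this
      inv_mem' := by
        rintro _ ⟨q, hq, c, hc, rfl⟩
        refine ⟨q⁻¹, Q.inv_mem hq, q * c⁻¹ * q⁻¹, ?_, by group⟩
        exact (Subgroup.mem_normalizer_iff.1 (h hq) _).1 (C.inv_mem hc) }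
  have hK : Q ⊔ C ≤ K := by
    apply sup_le
    · intro q hq
      exact ⟨q, hq, 1, C.one_mem, by rw [mul_one]⟩
    · intro c hc
      exact ⟨1, Q.one_mem, c, hc, by rw [one_mul]⟩
  exact hK hy

theorem relIndex_sup_norm {Q C : Subgroup G} (h : Q ≤ Subgroup.normalizer (C : Set G)) :
    C.relIndex Q = C.relIndex (Q ⊔ C) := by
  refine relIndex_congr le_sup_left fun s hs => ?_
  obtain ⟨q, hq, c, hc, rfl⟩ := mem_sup_norm h hs
  exact ⟨c⁻¹, C.inv_mem hc, by rwa [mul_inv_cancel_right]⟩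

theorem card_relIndex (C D : Subgroup G) :
    Nat.card (C ⊓ D : Subgroup G) * C.relIndex D = Nat.card D := by
  have h1 : Nat.card (C ⊓ D : Subgroup G) = Nat.card (C.subgroupOf D) := by
    have h2 : (C.subgroupOf D).map D.subtype = C ⊓ D := by
      ext x
      rw [Subgroup.mem_map, Subgroup.mem_inf]
      constructor
      · rintro ⟨d, hd, rfl⟩
        exact ⟨hd, d.2⟩
      · rintro ⟨h1, h2⟩
        exact ⟨⟨x, h2⟩, h1, rfl⟩
    rw [← h2, Subgroup.card_map_of_injective D.subtype_injective]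
  rw [h1, Subgroup.relIndex, Subgroup.card_mul_index]

/-- the counting argument -/
theorem count [Finite G] {ℓ : ℕ} [hp : Fact ℓ.Prime] {V C T : Subgroup G} (hV : IsPGroup ℓ V)
    (hVT : V ≤ T) (hCT : C ≤ T) (hVC : V ≤ Subgroup.normalizer (C : Set G))
    (hTC : T ≤ Subgroup.normalizer (C : Set G)) (hd : ℓ ∣ (V ⊔ C).relIndex T) :
    ∃ S : Subgroup G, V ≤ S ∧ C ≤ S ∧ S ≤ T ∧ (∃ n, C.relIndex S = ℓ ^ n) ∧
      ∀ D ≤ S, V ≤ D → (∀ s ∈ S, ∃ c ∈ C, s * c ∈ D) → ∃ P ≤ D, IsPGroup ℓ P ∧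
        Nat.card V < Nat.card P := by
  obtain ⟨Q', hQ'⟩ := IsPGroup.exists_le_sylow (G := T) (p := ℓ)
    (hV.of_equiv (Subgroup.subgroupOfEquivOfLe hVT).symm)
  set Q : Subgroup G := (Q' : Subgroup T).map T.subtype with hQ
  have hQT : Q ≤ T := by
    rintro _ ⟨t, -, rfl⟩
    exact t.2
  have hVQ : V ≤ Q := by
    intro v hv
    exact ⟨⟨v, hVT hv⟩, hQ' hv, rfl⟩
  have hQp : IsPGroup ℓ Q := Q'.isPGroup'.map _
  have hQi : ¬ ℓ ∣ Q.relIndex T := by
    have h1 : Q.subgroupOf T = (Q' : Subgroup T) := by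
      ext t
      rw [Subgroup.mem_subgroupOf, hQ]
      constructor
      · rintro ⟨s, hs, h⟩
        have : s = t := Subtype.ext h
        rwa [← this]
      · intro h
        exact ⟨t, h, rfl⟩
    rw [Subgroup.relIndex, h1]
    exact Q'.not_dvd_index
  have hQC : Q ≤ Subgroup.normalizer (C : Set G) := hQT.trans hTC
  refine ⟨Q ⊔ C, hVQ.trans le_sup_left, le_sup_right, sup_le hQT hCT, ?_, ?_⟩
  · obtain ⟨n, hn⟩ := hQp.exists_card_eq
    rw [← relIndex_sup_norm hQC]
    have h1 : C.relIndex Q ∣ ℓ ^ n := by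
      rw [← hn, ← card_relIndex C Q]
      exact dvd_mul_left _ _
    obtain ⟨m, -, hm⟩ := (Nat.dvd_prime_pow hp.out).1 h1
    exact ⟨m, hm⟩
  · intro D hDS hVD hD
    have hle : V ⊔ C ≤ Q ⊔ C := sup_le (hVQ.trans le_sup_left) le_sup_right
    -- the index of `V C` in `Q C` is divisible by `ℓ`
    have h1 : ℓ ∣ (V ⊔ C).relIndex (Q ⊔ C) := by
      have h2 : C.relIndex (V ⊔ C) * (V ⊔ C).relIndex (Q ⊔ C) = C.relIndex (Q ⊔ C) :=
        Subgroup.relIndex_mul_relIndex C (V ⊔ C) (Q ⊔ C) le_sup_right hle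
      obtain ⟨n, hn⟩ := hQp.exists_card_eq
      have h3 : (V ⊔ C).relIndex (Q ⊔ C) ∣ ℓ ^ n := by
        refine Dvd.dvd.trans (Dvd.intro_left _ h2) ?_
        rw [← relIndex_sup_norm hQC, ← hn, ← card_relIndex C Q]
        exact dvd_mul_left _ _
      obtain ⟨m, -, hm⟩ := (Nat.dvd_prime_pow hp.out).1 h3
      rcases Nat.eq_zero_or_pos m with h0 | h0
      · exfalso
        rw [h0, pow_zero, Subgroup.relIndex_eq_one] at hm
        apply hQi
        have h4 : Q ≤ V ⊔ C := le_sup_left.trans hm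
        have h5 : Q.relIndex (V ⊔ C) * (V ⊔ C).relIndex T = Q.relIndex T :=
          Subgroup.relIndex_mul_relIndex Q (V ⊔ C) T h4 (sup_le hVT hCT)
        rw [← h5]
        exact hd.mul_left _
      · rw [hm]
        exact dvd_pow_self _ h0.ne'
    -- the order of `D`
    have h2 : C.relIndex D = C.relIndex V * (V ⊔ C).relIndex (Q ⊔ C) := by
      rw [relIndex_congr hDS hD, relIndex_sup_norm hVC,
        Subgroup.relIndex_mul_relIndex C (V ⊔ C) (Q ⊔ C) le_sup_right hle]
    have h3 : Nat.card (C ⊓ V : Subgroup G) ∣ Nat.card (C ⊓ D : Subgroup G) :=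
      Subgroup.card_dvd_of_le (inf_le_inf_left C hVD)
    have h4 : Nat.card V * ℓ ∣ Nat.card D := by
      rw [← card_relIndex C V, ← card_relIndex C D, h2, mul_assoc]
      exact mul_dvd_mul h3 (mul_dvd_mul_left _ h1)
    obtain ⟨n, hn⟩ := hV.exists_card_eq
    rw [hn, ← pow_succ] at h4
    obtain ⟨P', hP'⟩ := Sylow.exists_subgroup_card_pow_prime ℓ h4
    refine ⟨P'.map D.subtype, ?_, ?_, ?_⟩
    · rintro _ ⟨t, -, rfl⟩
      exact t.2
    · exact (IsPGroup.of_card hP').map _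
    · rw [Subgroup.card_map_of_injective D.subtype_injective, hP', hn]
      exact Nat.pow_lt_pow_right hp.out.one_lt (Nat.lt_succ_self n)

theorem norm_centralizer (V : Subgroup G) :
    Subgroup.normalizer (V : Set G) ≤
      Subgroup.normalizer ((Subgroup.centralizer (V : Set G) : Subgroup G) : Set G) := by
  have key : ∀ g ∈ Subgroup.normalizer (V : Set G), ∀ x ∈ Subgroup.centralizer (V : Set G),
      g * x * g⁻¹ ∈ Subgroup.centralizer (V : Set G) := by
    intro g hg x hx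
    rw [Subgroup.mem_centralizer_iff] at hx ⊢
    intro v hv
    have h1 : g⁻¹ * v * g ∈ V := by
      have := (Subgroup.mem_normalizer_iff.1 (Subgroup.inv_mem _ hg) v).1 hv
      rwa [inv_inv] at this
    have h2 := hx _ h1
    calc v * (g * x * g⁻¹) = g * ((g⁻¹ * v * g) * x) * g⁻¹ := by group
      _ = g * (x * (g⁻¹ * v * g)) * g⁻¹ := by rw [h2]
      _ = _ := by group
  intro g hg
  rw [Subgroup.mem_normalizer_iff]
  intro x
  constructor
  · exact key g hg x
  · intro h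
    have := key g⁻¹ (Subgroup.inv_mem _ hg) _ h
    have e : g⁻¹ * (g * x * g⁻¹) * g⁻¹⁻¹ = x := by group
    rwa [e] at this

end grp

theorem ix5 (ors : OrsStmt) : Ix5Stmt := by
  intro ℓ hp M _ hM G _ _ e he V hV γ hγ hund hdvd
  have hF : GoodF ℓ (FF M) := H50.fld ℓ hp.out M hM
  set C : Subgroup G := Subgroup.centralizer (V : Set G) with hC
  have hnC : Subgroup.normalizer (V : Set G) ≤ Subgroup.normalizer (C : Set G) :=
    norm_centralizer V
  have hcjV : ∀ v ∈ V, cj v γ = γ := by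
    intro v hv
    rw [cj_eq_iff]
    intro x
    by_cases hx : x ∈ C
    · have h1 := Subgroup.mem_centralizer_iff.1 hx v hv
      rw [h1, mul_inv_cancel_right]
    · rw [hγ.supp x hx, hγ.supp]
      intro h
      apply hx
      exact (Subgroup.mem_normalizer_iff.1 (hnC (Subgroup.le_normalizer hv)) x).2 h
  have hVT : V ≤ Tg V γ := by
    intro v hv
    refine ⟨Subgroup.le_normalizer hv, ?_⟩
    exact (cj_eq_iff v γ).1 (hcjV v hv)
  have hCN : C ≤ Subgroup.normalizer (V : Set G) := Subgroup.centralizer_le_normalizer _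
  have hCT : C ≤ Tg V γ := by
    intro c hc
    refine ⟨hCN hc, ?_⟩
    exact (cj_eq_iff c γ).1 (hγ.ix.inv hc)
  have hTN : Tg V γ ≤ Subgroup.normalizer (V : Set G) := inf_le_left
  obtain ⟨S, hVS, hCS, hST, hSn, hS⟩ := count (ℓ := ℓ) hV.pg hVT hCT
    (Subgroup.le_normalizer.trans hnC) (hTN.trans hnC) hdvd
  have hcjS : ∀ s ∈ S, cj s γ = γ := by
    intro s hs
    rw [cj_eq_iff]
    exact (hST hs).2
  obtain ⟨c, hc, hγc, -, hcs⟩ := ors ℓ (FF M) hF G C S hCS ((hST.trans hTN).trans hnC) hSn γ hγ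
    hcjS
  obtain ⟨P, hPD, hPp, hPV⟩ := hS (S ⊓ Cu c) inf_le_left (le_inf hVS (by
    intro v hv
    rw [Subgroup.mem_centralizer_singleton_iff]
    exact Subgroup.mem_centralizer_iff.1 hc v hv)) (by
      intro s hs
      obtain ⟨x, hx, hxs⟩ := hcs s hs
      have h1 : s⁻¹ * x * s ∈ C := by
        have := (Subgroup.mem_normalizer_iff.1 ((hST.trans hTN).trans hnC
          (Subgroup.inv_mem _ hs)) x).1 hx
        rwa [inv_inv] at this
      refine ⟨s⁻¹ * x * s, h1, ?_⟩
      have e : s * (s⁻¹ * x * s) = x * s := by group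
      rw [e]
      refine ⟨S.mul_mem (hCS hx) hs, ?_⟩
      change x * s ∈ Subgroup.centralizer ({c} : Set G)
      rw [Subgroup.mem_centralizer_singleton_iff]
      exact hxs)
  have hPN : P ≤ Subgroup.normalizer (V : Set G) :=
    (hPD.trans inf_le_left).trans (hST.trans hTN)
  refine absurd (hV.mx P hPp ?_) (not_le.2 hPV)
  by_contra hcon
  have hcP : c ∈ Subgroup.centralizer (P : Set G) := by
    rw [Subgroup.mem_centralizer_iff]
    intro p hp'
    exact Subgroup.mem_centralizer_singleton_iff.1 (hPD hp').2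
  have hbi : ∀ p ∈ P, cj p (br V e) = br V e := by
    intro p hp'
    rw [cj_eq_iff]
    intro x
    have h1 : p * x * p⁻¹ ∈ Subgroup.centralizer (V : Set G) ↔
        x ∈ Subgroup.centralizer (V : Set G) :=
      (Subgroup.mem_normalizer_iff.1 (hnC (hPN hp')) x).symm
    by_cases hx : x ∈ Subgroup.centralizer (V : Set G)
    · rw [br_in _ (h1.2 hx), br_in _ hx, he.1.1]
    · rw [br_out _ (fun h => hx (h1.1 h)), br_out _ hx]
  have h1 := br_mulF H74.orb hF hPp hbi (fun p hp' => hcjS p (hPD hp').1)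
  have h2 : br P (br V e) = 0 := by
    funext x
    by_cases hx : x ∈ Subgroup.centralizer (P : Set G)
    · rw [br_in _ hx]
      by_cases hx' : x ∈ Subgroup.centralizer (V : Set G)
      · rw [br_in _ hx']
        by_contra hne
        exact hcon ⟨x, hx, hne⟩
      · rw [br_out _ hx']
        rfl
    · rw [br_out _ hx]
      rfl
  rw [hund, h2, mulF_zero_left] at h1
  apply hγc
  rw [← br_in γ hcP, h1]
  rfl

end Pool.Agent.PP.T5.H83
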